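import Pool.Agent.Lib.MP_c7b0ca_h66.Odd

/-!
MP_c7b0ca_al: words of bounded width on finitely generated soluble groups.

Let `G` be a finitely generated soluble group such that for every `i ≥ 3` the subgroup generated by
`[G, G^(i)]` and the squares of the elements of `G^(i)` has finite index in `G^(i)`. Then the words
`[x, y]` and `x²` have finite width on `G`.
-/

open scoped Pointwise commutatorElement

namespace Pool.Agent.Results.MP_c7b0ca_al.FiniteTwoLayers

open Pool.Agent.Lib.MP_c7b0ca_al Pool.Agent.Lib.MP_c7b0ca_fe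

theorem result (G : Type*) [Group G] [Group.FG G] (hG : IsSolvable G)
    (hfin : ∀ i, 3 ≤ i →
      (⁅(⊤ : Subgroup G), derivedSeries G i⁆ ⊔
        Subgroup.closure {x | ∃ y ∈ derivedSeries G i, x = y ^ 2}).relIndex
          (derivedSeries G i) ≠ 0) :
    InClassK ⁅(FreeGroup.of 0 : FreeGroup (Fin 2)), (FreeGroup.of 1 : FreeGroup (Fin 2))⁆ G ∧
      InClassK ((FreeGroup.of 0 : FreeGroup (Fin 1)) ^ 2) G := by
  obtain ⟨k, hk⟩ := (isSolvable_def G).1 hG
  obtain ⟨n, hn⟩ := Pool.Agent.Lib.MP_c7b0ca_h66.bounded_ap hfin k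
  have h0 : derivedSeries G (k + 3) = ⊥ := by
    rw [eq_bot_iff, ← hk]
    exact derivedSeries_antitone G (by omega)
  have h : ∃ n : ℕ, ∀ x ∈ commutator G, x ∈ (commutatorSet G) ^ n := by
    refine ⟨n, fun x hx => ?_⟩
    have h1 := hn x hx
    rw [h0] at h1
    exact Pool.Agent.Lib.MP_c7b0ca_h66.ap_bot.1 h1
  exact ⟨inClassK_comm h, inClassK_sq h⟩

end Pool.Agent.Results.MP_c7b0ca_al.FiniteTwoLayers
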