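import Pool.Agent.Lib.MP_c7b0ca_al.Words
import Pool.Agent.Lib.MP_c7b0ca_al_h12.Main
import Pool.Agent.Lib.MP_c7b0ca_h10.Squares

/-!
MP_c7b0ca_al: words of bounded width on finitely generated soluble groups.

Q1 is answered for every word `v` except the words in `F²` that lie in no `F''(F')^p`: for all
other words `v`, every finitely generated soluble group lies in `K_v` if and only if `v = 1` or `v`
lies in no `F''(F')^p`.
-/

namespace Pool.Agent.Results.MP_c7b0ca_al.OutsideTheGap

open Pool.Agent.Lib.MP_c7b0ca_al Pool.Agent.Lib.MP_c7b0ca_h10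

theorem result {k : ℕ} (v : FreeGroup (Fin k))
    (hv : v ∉ squares k ∨ ∃ p : ℕ, p.Prime ∧ v ∈ layer k p) :
    List.TFAE [
      -- every finitely generated virtually soluble group lies in `K_v`
      ∀ (G : Type) [Group G] [Group.FG G],
        (∃ H : Subgroup G, H.FiniteIndex ∧ Group.IsSolvable H) → InClassK v G,
      -- every finitely generated soluble group lies in `K_v`
      ∀ (G : Type) [Group G] [Group.FG G], Group.IsSolvable G → InClassK v G,
      -- on every two-generator soluble group `v` has finite width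
      ∀ (G : Type) [Group G], Group.IsSolvable G → (∃ x y : G, Subgroup.closure {x, y} = ⊤) →
        ∃ n : ℕ, ∀ z ∈ verbalSubgroup v G, ∃ y : Fin n → G,
          (∀ i, y i ∈ wordValues v G ∨ (y i)⁻¹ ∈ wordValues v G) ∧ (List.ofFn y).prod = z,
      -- `v = 1` or `v` lies in no `F''(F')^p`
      v = 1 ∨ ∀ p : ℕ, p.Prime → v ∉ layer k p] := by
  tfae_have 1 → 2 := by
    intro h G _ _ hG
    exact h G ⟨⊤, inferInstance, (Group.isSolvable_of_surjective
      (f := (Subgroup.topEquiv : (⊤ : Subgroup G) ≃* G).symm.toMonoidHom)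
      (Subgroup.topEquiv : (⊤ : Subgroup G) ≃* G).symm.surjective)⟩
  tfae_have 2 → 3 := by
    intro h G _ hG hxy
    obtain ⟨x, y, hxy⟩ := hxy
    have hfg : Group.FG G := Group.fg_iff.2 ⟨{x, y}, hxy, Set.toFinite _⟩
    obtain ⟨n, -, hn⟩ := h G hG
    refine ⟨n, fun z hz => ?_⟩
    obtain ⟨w, hw, hwz⟩ := hn z hz
    exact ⟨w, fun i => Or.inl (hw i), hwz⟩
  tfae_have 3 → 4 := by
    intro h
    by_cases hv1 : v = 1
    · exact Or.inl hv1
    · right
      intro p hp hvp
      have : Fact p.Prime := ⟨hp⟩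
      obtain ⟨G, hG, h1, h2, h3⟩ := VerbalWidth.main (p := p) v hv1 hvp
      obtain ⟨n, hn⟩ := h G h1 h2
      obtain ⟨z, hz, hz'⟩ := h3 n
      obtain ⟨y, hy, hyz⟩ := hn z hz
      exact hz' y hy hyz
  tfae_have 4 → 1 := by
    rintro (hv1 | hv1) G _ _ hG
    · subst hv1
      refine ⟨1, one_pos, fun x hx => ?_⟩
      have hx1 : x = 1 := by
        have hsub : verbalSubgroup (1 : FreeGroup (Fin k)) G = ⊥ := by
          rw [verbalSubgroup, Subgroup.closure_eq_bot_iff]
          rintro _ ⟨g, rfl⟩
          simp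
        rw [hsub] at hx
        exact Subgroup.mem_bot.1 hx
      subst hx1
      exact ⟨fun _ => 1, fun _ => ⟨fun _ => 1, by simp⟩, by simp⟩
    · rcases hv with h | ⟨p, hp, h⟩
      · exact main v (exists_odd_of_notMem v h) G hG
      · exact absurd h (hv1 p hp)
  tfae_finish

end Pool.Agent.Results.MP_c7b0ca_al.OutsideTheGap
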