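import Pool.Agent.Lib.MP_c7b0ca_fe.G5
import Pool.Agent.Lib.MP_c7b0ca_fe.FN

/-!
MP_c7b0ca_al: words of bounded width on finitely generated soluble groups.

Let `G` be a finitely generated group with normal subgroups `R ≤ N` such that `G/N` is abelian,
`N/R` is nilpotent and periodic, and `R` is metabelian. Then the words `[x, y]` and `x²` have finite
width on `G`. In particular this holds for every finitely generated soluble group `G` of derived
length at most 4 with `G'/G''` periodic.
-/

open scoped commutatorElement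

namespace Pool.Agent.Results.MP_c7b0ca_al.PeriodicLayer

open Pool.Agent.Lib.MP_c7b0ca_al Pool.Agent.Lib.MP_c7b0ca_fe

theorem result (G : Type*) [Group G] [Group.FG G] (R N : Subgroup G) [R.Normal] [N.Normal]
    (hRN : R ≤ N) (hab : commutator G ≤ N) (hnil : Group.IsNilpotent (N ⧸ R.subgroupOf N))
    (htor : ∀ x ∈ N, ∃ n > 0, x ^ n ∈ R) (hmet : ⁅⁅R, R⁆, ⁅R, R⁆⁆ = ⊥) :
    InClassK ⁅(FreeGroup.of 0 : FreeGroup (Fin 2)), (FreeGroup.of 1 : FreeGroup (Fin 2))⁆ G ∧
      InClassK ((FreeGroup.of 0 : FreeGroup (Fin 1)) ^ 2) G := by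
  obtain ⟨c, hc⟩ := lcN_le_of_nilpotent R N hRN hnil
  have h := finite_width R N hRN hab c hc htor hmet
  exact ⟨inClassK_comm h, inClassK_sq h⟩

end Pool.Agent.Results.MP_c7b0ca_al.PeriodicLayer
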