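import Pool.Agent.Lib.MP_c7b0ca_h66.Odd

/-!
MP_c7b0ca_al: words of bounded width on finitely generated soluble groups.

For all `d` and `k` there is `n` such that for every `d`-generator soluble group `G` of derived
length at most `k + 3` the `2 ^ k`-th power of every element of `G'` is a product of `n`
commutators, and so is every element of odd order of `G'`.
-/

open scoped Pointwise commutatorElement

namespace Pool.Agent.Results.MP_c7b0ca_al.TwoPowers

universe u

theorem result (d k : ℕ) : ∃ n : ℕ, ∀ (G : Type u) [Group G],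
    (∃ S : Finset G, S.card ≤ d ∧ Subgroup.closure (S : Set G) = ⊤) →
    derivedSeries G (k + 3) = ⊥ → ∀ x ∈ commutator G,
      x ^ 2 ^ k ∈ (commutatorSet G) ^ n ∧ (Odd (orderOf x) → x ∈ (commutatorSet G) ^ n) := by
  obtain ⟨n, hn⟩ := Pool.Agent.Lib.MP_c7b0ca_h66.pow_bounded.{u} d k
  refine ⟨n, fun G _ hS hG x hx => ⟨hn G hS hG x hx, fun hodd => ?_⟩⟩
  have hc : (orderOf x).Coprime (2 ^ k) := hodd.coprime_two_right.pow_right k
  obtain ⟨a, ha⟩ := exists_pow_eq_self_of_coprime hc.symm
  have h1 := hn G hS hG (x ^ a) (Subgroup.pow_mem _ hx a)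
  rwa [← pow_mul, mul_comm, pow_mul, ha] at h1

end Pool.Agent.Results.MP_c7b0ca_al.TwoPowers
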